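import Pool.Agent.Lib.MP_a31e1e_gt.CWDefs

/-!
Module CWSURJ of project TIGHT: every point satisfying the description of a cell lies in the
closed cell.
-/

set_option autoImplicit false

open scoped ContDiff Manifold Topology RealInnerProductSpace
open Set Metric

namespace Pool.Agent.Tight.H62

open Pool.Agent.Tight

/-! ### planar facts -/

theorem sum_ell (x : E3) : ell 0 x + ell 1 x + ell 2 x = 3 := by
  simp only [ell]; ring

theorem nn_ell (x : E3) : nn x = 2 / 3 * (ell 0 x ^ 2 + ell 1 x ^ 2 + ell 2 x ^ 2) - 2 := by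
  have h3 : √3 ^ 2 = 3 := Real.sq_sqrt (by norm_num)
  simp only [ell, nn]
  linear_combination (-(x 0) ^ 2 / 3) * h3

theorem nn_congr {x y : E3} (h0 : x 0 = y 0) (h1 : x 1 = y 1) : nn x = nn y := by
  simp only [nn, h0, h1]

theorem tt_congr {x y : E3} (h0 : x 0 = y 0) (h1 : x 1 = y 1) : tt x = tt y := by
  simp only [tt, cc, nn, h0, h1]

theorem ell_congr {x y : E3} (h0 : x 0 = y 0) (h1 : x 1 = y 1) (j : Fin 3) :
    ell j x = ell j y := by
  simp only [ell, h0, h1]

theorem qo_congr {x y : E3} (h0 : x 0 = y 0) (h1 : x 1 = y 1) : qo x = qo y := by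
  simp only [qo, nn_congr h0 h1, tt_congr h0 h1]

theorem qq_congr {x y : E3} (h0 : x 0 = y 0) (h1 : x 1 = y 1) : qq x = qq y := by
  simp only [qq, nn_congr h0 h1, tt_congr h0 h1]

theorem eq_lift {z : E3 × ℂ} {p : E3} {w : ℝ} (h2 : z.2 = 0) (h0 : p 0 = z.1 0)
    (h1 : p 1 = z.1 1) (hw : w = z.1 2) : lift p w = z := by
  unfold lift
  apply Prod.ext
  · ext i
    fin_cases i
    · simpa using h0
    · simpa using h1
    · simpa using hw
  · exact h2.symm

theorem sheet_sq {x : E3} (h : FS x = 0) :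
    (0 ≤ mm x → x 2 ^ 2 = qo x) ∧ (mm x ≤ 0 → x 2 ^ 2 = qq x) := by
  have h1 : tt x = (mm x / 4) ^ 2 := by
    unfold FS at h
    linarith
  constructor
  · intro hm
    have h2 : √(tt x) = mm x / 4 := by rw [h1, Real.sqrt_sq (by linarith)]
    unfold qo
    rw [h2]
    unfold mm
    ring
  · intro hm
    have h2 : √(tt x) = -(mm x / 4) := by
      rw [h1, Real.sqrt_sq_eq_abs, abs_of_nonpos (by linarith)]
    unfold qq
    rw [h2]
    unfold mm
    ring

theorem sqrt_of_pos {a q : ℝ} (h : a ^ 2 = q) (ha : 0 ≤ a) : √q = a := by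
  rw [← h, Real.sqrt_sq ha]

theorem sqrt_of_neg {a q : ℝ} (h : a ^ 2 = q) (ha : a ≤ 0) : -√q = a := by
  rw [← h, Real.sqrt_sq_eq_abs, abs_of_nonpos ha]; ring

/-- the three upper sheet types -/
theorem onSh_sheet {x p : E3} {i : Fin 3} (h : FS x = 0) (hs : OnSh i x) (h0 : x 0 = p 0)
    (h1 : x 1 = p 1) : sheet i.castSucc p = x 2 := by
  obtain ⟨ho, hq⟩ := sheet_sq h
  fin_cases i
  · obtain ⟨hm, hw⟩ := hs
    exact sqrt_of_pos ((ho hm.le).trans (qo_congr h0 h1)) hw.le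
  · obtain ⟨hm, hw⟩ := hs
    exact sqrt_of_neg ((ho hm.le).trans (qo_congr h0 h1)) hw.le
  · obtain ⟨hm, hw⟩ := hs
    exact sqrt_of_pos ((hq hm.le).trans (qq_congr h0 h1)) hw.le

theorem planar_eq {x y : E3} (h : ∀ j, ell j x = ell j y) : x 0 = y 0 ∧ x 1 = y 1 := by
  have h1 := h 0
  have h2 := h 1
  simp only [ell] at h1 h2
  have e1 : x 1 = y 1 := by linarith
  have h3 : √3 * (x 0 - y 0) = 0 := by
    rw [e1] at h2
    linarith
  have h4 : √3 ≠ 0 := by positivity
  have h5 : x 0 - y 0 = 0 := by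
    rcases mul_eq_zero.1 h3 with h | h
    · exact absurd h h4
    · exact h
  exact ⟨by linarith, e1⟩

theorem sqrt3_mul : √3 * √3 = 3 := Real.mul_self_sqrt (by norm_num)

/-- the linear functions on the segments -/
theorem ell_seg (j i : Fin 3) (τ : ℝ) :
    ell i (τ • ev j) = if i = j then 1 - τ else 1 + τ / 2 := by
  have h3 : √3 ^ 2 = 3 := Real.sq_sqrt (by norm_num)
  fin_cases j <;> fin_cases i <;>
    simp [ell, ev, pl] <;> first | linarith | (ring_nf; simp only [h3]; ring)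

/-- a point with the description of a segment -/
theorem seg_param {j : Fin 3} {x : E3} (h : InSeg j x) :
    (((1 - ell j x) • ev j : E3) 0 = x 0 ∧ ((1 - ell j x) • ev j : E3) 1 = x 1) ∧
      ell j x < 1 := by
  have hs := sum_ell x
  have key : ell j x < 1 ∧ ∀ i, ell i ((1 - ell j x) • ev j) = ell i x := by
    fin_cases j
    · have h1 := h 1 (by decide)
      have h2 := h 2 (by decide)
      have e1 : ell ((1 : Fin 3) + (1 - 0)) x = ell 2 x := rfl
      rw [show ((⟨0, by omega⟩ : Fin 3)) = 0 from rfl] at h1 h2 ⊢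
      rw [e1] at h1
      refine ⟨by linarith [h1.1, h2.1], fun i => ?_⟩
      rw [ell_seg]
      fin_cases i
      · simp
      · simp; linarith [h1.2]
      · simp; linarith [h1.2]
    · have h1 := h 0 (by decide)
      have h2 := h 2 (by decide)
      have e1 : ell ((2 : Fin 3) + (2 - 1)) x = ell 0 x := rfl
      rw [show ((⟨1, by omega⟩ : Fin 3)) = 1 from rfl] at h1 h2 ⊢
      rw [e1] at h2
      refine ⟨by linarith [h1.1, h2.1], fun i => ?_⟩
      rw [ell_seg]
      fin_cases i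
      · simp; linarith [h2.2]
      · simp
      · simp; linarith [h2.2]
    · have h1 := h 0 (by decide)
      have h2 := h 1 (by decide)
      have e1 : ell ((0 : Fin 3) + (0 - 2)) x = ell 1 x := rfl
      rw [show ((⟨2, by omega⟩ : Fin 3)) = 2 from rfl] at h1 h2 ⊢
      rw [e1] at h1
      refine ⟨by linarith [h1.1, h2.1], fun i => ?_⟩
      rw [ell_seg]
      fin_cases i
      · simp; linarith [h1.2]
      · simp; linarith [h1.2]
      · simp
  exact ⟨planar_eq key.2, key.1⟩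

theorem nn_seg (j : Fin 3) (τ : ℝ) : nn (τ • ev j) = τ ^ 2 := by
  rw [nn_ell, ell_seg, ell_seg, ell_seg]
  fin_cases j <;> simp <;> ring

/-- facts on kite points used below -/
theorem kite_pt (hK : KiteStatement) (hS : SigRegStatement) {x : E3} (hFS : FS x = 0)
    (hn : nn x < 4) {k : Fin 3} (hk : InKite k x) :
    ∃ β σ, 0 ≤ β ∧ β ≤ 1 ∧ 0 < σ ∧ σ ≤ far β ∧ kp k β σ 0 = x 0 ∧ kp k β σ 1 = x 1 ∧
      ell (k + 1) x = σ * β ∧ ell (k + 2) x = σ * (1 - β) ∧
      qo x = qW 1 β σ ∧ qq x = qW (-1) β σ ∧ nn (kp k β σ) = nn x := by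
  obtain ⟨hP, -, -⟩ := hS.2.1 x hFS hn.le
  have hmax : ∀ j, ell j x ≤ ell k x := by
    intro j
    by_cases hj : j = k
    · rw [hj]
    · exact (hk j hj).le
  have h3 : ell k x < 3 := by
    by_contra hcon
    push Not at hcon
    have h0 := hP 0
    have h1 := hP 1
    have h2 := hP 2
    have hs := sum_ell x
    rw [nn_ell] at hn
    have hk3 : ell k x = 3 := by
      apply le_antisymm _ hcon
      fin_cases k
      · change ell 0 x ≤ 3; linarith
      · change ell 1 x ≤ 3; linarith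
      · change ell 2 x ≤ 3; linarith
    have hsq : (3 : ℝ) ^ 2 ≤ ell 0 x ^ 2 + ell 1 x ^ 2 + ell 2 x ^ 2 := by
      rw [← hk3]
      fin_cases k
      · change ell 0 x ^ 2 ≤ _; nlinarith [sq_nonneg (ell 1 x), sq_nonneg (ell 2 x)]
      · change ell 1 x ^ 2 ≤ _; nlinarith [sq_nonneg (ell 0 x), sq_nonneg (ell 2 x)]
      · change ell 2 x ^ 2 ≤ _; nlinarith [sq_nonneg (ell 1 x), sq_nonneg (ell 0 x)]
    linarith
  obtain ⟨β, σ, hβ0, hβ1, hσ0, hσ1, e0, e1⟩ := hK.2.2.2.2.1 k x hP hmax h3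
  obtain ⟨-, k1, k2⟩ := hK.1 k β σ
  obtain ⟨q1, q2⟩ := hK.2.2.2.1 k β σ hσ0.le
  exact ⟨β, σ, hβ0, hβ1, hσ0, hσ1, e0, e1, by rw [← k1]; exact ell_congr e0.symm e1.symm _,
    by rw [← k2]; exact ell_congr e0.symm e1.symm _,
    by rw [← q1]; exact qo_congr e0.symm e1.symm,
    by rw [← q2]; exact qq_congr e0.symm e1.symm, nn_congr e0 e1⟩

/-- a point over a kite lies in the wedge cell -/
theorem wedge_mem (hA : ArcStatement) (hK : KiteStatement) {ρ : ℝ} (hρ : 0 < ρ)
    (hρ' : ρ ≤ 1 / 100) {z : E3 × ℂ} (h2 : z.2 = 0) {k : Fin 3} {β σ : ℝ} (o : Bool)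
    (hβ0 : 0 ≤ β) (hβ1 : β ≤ 1) (hσ0 : 0 < σ) (hσ1 : σ ≤ far β)
    (e0 : kp k β σ 0 = z.1 0) (e1 : kp k β σ 1 = z.1 1)
    (hw : z.1 2 ^ 2 = qW (if o then 1 else -1) β σ)
    (hnn : o = false → z.1 2 < 0 → 4 * ρ ^ 2 ≤ nn (kp k β σ)) :
    ∃ s, |s| ≤ 1 ∧ wedge ρ o k β s = z := by
  have hε : (if o then (1 : ℝ) else -1) = 1 ∨ (if o then (1 : ℝ) else -1) = -1 := by
    cases o <;> simp
  obtain ⟨-, harc⟩ := hA.1 _ hε
  obtain ⟨ha0, ha1, ha⟩ := harc β hβ0 hβ1
  obtain ⟨hpos, hzero⟩ := ha σ hσ0.le hσ1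
  obtain ⟨hf1, -⟩ := hK.2.2.2.2.2.1 β hβ0 hβ1
  obtain ⟨-, -, hC, -, hC2⟩ := hA.2.2 ρ hρ hρ'
  obtain ⟨hc1, hc2⟩ := hC β hβ0 hβ1
  set ε : ℝ := if o then 1 else -1 with hεdef
  have hle : arc ε β ≤ σ := by
    rcases (sq_nonneg (z.1 2)).lt_or_eq with h | h
    · exact (hpos.1 (by rw [← hw]; exact h)).le
    · exact (hzero.1 (by rw [← hw]; exact h.symm)).ge
  rcases le_or_gt 0 (z.1 2) with hw0 | hw0
  · -- upper part
    have hden : 0 < far β - arc ε β := by linarith
    refine ⟨(σ - arc ε β) / (far β - arc ε β), ?_, ?_⟩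
    · rw [abs_of_nonneg (div_nonneg (by linarith) hden.le), div_le_one hden]
      linarith
    · have hs0 : 0 ≤ (σ - arc ε β) / (far β - arc ε β) := div_nonneg (by linarith) hden.le
      have hns : ¬ (σ - arc ε β) / (far β - arc ε β) < 0 := not_lt.2 hs0
      unfold wedge
      simp only [← hεdef, hns, and_false, if_false, abs_of_nonneg hs0]
      rw [div_mul_cancel₀ _ hden.ne', add_sub_cancel]
      apply eq_lift h2 e0 e1
      rw [one_mul]
      exact sqrt_of_pos hw hw0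
  · -- lower part
    have hlt : arc ε β < σ := hpos.1 (by rw [← hw]; nlinarith)
    set f : ℝ := if o = false then farC ρ β else far β with hf
    have hfσ : σ ≤ f := by
      rw [hf]
      split_ifs with ho
      · exact (hC2 k β σ hβ0 hβ1 hσ0.le hσ1).2.1 (hnn ho hw0)
      · exact hσ1
    have hden : 0 < f - arc ε β := by linarith
    have hpos' : 0 < (σ - arc ε β) / (f - arc ε β) := div_pos (by linarith) hden
    refine ⟨-((σ - arc ε β) / (f - arc ε β)), ?_, ?_⟩
    · rw [abs_neg, abs_of_pos hpos', div_le_one hden]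
      linarith
    · have hns : -((σ - arc ε β) / (f - arc ε β)) < 0 := by linarith
      unfold wedge
      simp only [← hεdef, hns, and_true, if_true, abs_neg, abs_of_pos hpos', ← hf]
      rw [div_mul_cancel₀ _ hden.ne', add_sub_cancel]
      apply eq_lift h2 e0 e1
      rw [neg_one_mul]
      exact sqrt_of_neg hw hw0.le

/-- `CWSURJ` -/
theorem cwSurj (hK : KiteStatement) (hA : ArcStatement) (hF : FloorRegStatement)
    (hS : SigRegStatement) : CWSurjStatement := by
  intro ρ l hp n i z hz hc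
  have hρ := hp.hρ
  have hρ' := hp.hρ'
  have hl := hp.hl
  match n, i, hc with
  | 0, Sum.inl i, hc =>
    obtain ⟨h2, hFS, hn, hs⟩ := hc
    refine ⟨0, by simp, ?_⟩
    have h0 : z.1 0 = 0 := by
      unfold nn at hn; nlinarith [sq_nonneg (z.1 0), sq_nonneg (z.1 1)]
    have h1 : z.1 1 = 0 := by
      unfold nn at hn; nlinarith [sq_nonneg (z.1 0), sq_nonneg (z.1 1)]
    have e0 : (pl 0 0 : E3) 0 = z.1 0 := by rw [h0]; simp [pl]
    have e1 : (pl 0 0 : E3) 1 = z.1 1 := by rw [h1]; simp [pl]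
    exact eq_lift h2 e0 e1 (onSh_sheet hFS hs e0.symm e1.symm)
  | 0, Sum.inr (Sum.inl (j, b)), hc =>
    obtain ⟨h2, hFS, hseg, hj, hb⟩ := hc
    refine ⟨0, by simp, ?_⟩
    obtain ⟨⟨e0, e1⟩, -⟩ := seg_param hseg
    rw [hj, sub_zero, one_smul] at e0 e1
    have hm : mm z.1 = 0 := by
      have ht : tt z.1 = 0 := by
        rw [hS.1]
        have : ell 0 z.1 = 0 ∨ ell 1 z.1 = 0 ∨ ell 2 z.1 = 0 := by
          fin_cases j
          · exact Or.inl hj
          · exact Or.inr (Or.inl hj)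
          · exact Or.inr (Or.inr hj)
        rcases this with h | h | h <;> rw [h] <;> ring
      have := hFS
      unfold FS at this
      rw [ht] at this
      nlinarith
    have hq := ((sheet_sq hFS).1 hm.ge).trans (qo_congr e0.symm e1.symm)
    cases b
    · refine eq_lift h2 e0 e1 ?_
      exact sqrt_of_neg hq (le_of_lt hb)
    · refine eq_lift h2 e0 e1 ?_
      exact sqrt_of_pos hq (le_of_lt hb)
  | 0, Sum.inr (Sum.inr i), hc =>
    exact ⟨0, by simp, Eq.symm hc⟩
  | 1, Sum.inl (k, d), hc =>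
    obtain ⟨h2, hFS, hk, hd, hn⟩ := hc
    obtain ⟨β, σ, hβ0, hβ1, hσ0, hσ1, e0, e1, k1, k2, q1, q2, hnn⟩ := kite_pt hK hS hFS hn hk
    have hm : mm z.1 = 0 := by
      have ht : tt z.1 = 0 := by
        rw [hS.1]
        have : ell 0 z.1 = 0 ∨ ell 1 z.1 = 0 ∨ ell 2 z.1 = 0 := by
          generalize (if d then k + 2 else k + 1) = j at hd
          fin_cases j
          · exact Or.inl hd
          · exact Or.inr (Or.inl hd)
          · exact Or.inr (Or.inr hd)
        rcases this with h | h | h <;> rw [h] <;> ring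
      have := hFS
      unfold FS at this
      rw [ht] at this
      nlinarith
    have hw : z.1 2 ^ 2 = qW (if true then 1 else -1) β σ := by
      rw [if_pos rfl, ← q1]
      exact (sheet_sq hFS).1 hm.ge
    have hβ : β = if d then 1 else 0 := by
      cases d
      · have h : ell (k + 1) z.1 = 0 := hd
        rw [k1] at h
        rcases mul_eq_zero.1 h with h | h
        · exact absurd h hσ0.ne'
        · simpa using h
      · have h : ell (k + 2) z.1 = 0 := hd
        rw [k2] at h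
        rcases mul_eq_zero.1 h with h | h
        · exact absurd h hσ0.ne'
        · simp; linarith
    obtain ⟨s, hs, hws⟩ := wedge_mem hA hK hρ hρ' h2 true hβ0 hβ1 hσ0 hσ1 e0 e1 hw
      (fun h => absurd h (by decide))
    refine ⟨fun _ => s, ?_, ?_⟩
    · rw [mem_closedBall_zero_iff, pi_norm_le_iff_of_nonneg zero_le_one]
      intro _; rw [Real.norm_eq_abs]; exact hs
    · rw [hβ] at hws
      exact hws
  | 1, Sum.inr (Sum.inl (i, j)), hc =>
    obtain ⟨h2, hFS, hseg, hj, hs⟩ := hc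
    obtain ⟨⟨e0, e1⟩, hlt⟩ := seg_param hseg
    refine ⟨fun _ => 2 * (1 - ell j z.1) - 1, ?_, ?_⟩
    · rw [mem_closedBall_zero_iff, pi_norm_le_iff_of_nonneg zero_le_one]
      intro _; rw [Real.norm_eq_abs, abs_le]; constructor <;> linarith
    · have hτ : (1 + (2 * (1 - ell j z.1) - 1)) / 2 = 1 - ell j z.1 := by ring
      change onSheet i.castSucc (((1 + (2 * (1 - ell j z.1) - 1)) / 2) • ev j) = z
      rw [hτ]
      exact eq_lift h2 e0 e1 (onSh_sheet hFS hs e0.symm e1.symm)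
  | 1, Sum.inr (Sum.inr (Sum.inl j)), hc =>
    obtain ⟨h2, hFS, hseg, hj, hm, hw, hn⟩ := hc
    obtain ⟨⟨e0, e1⟩, hlt⟩ := seg_param hseg
    have hτ2 : nn z.1 = (1 - ell j z.1) ^ 2 := by
      rw [← nn_seg j, nn_congr e0 e1]
    rw [hτ2] at hn
    have hτ : 2 * ρ < 1 - ell j z.1 := by nlinarith
    have hden : 0 < 1 - 2 * ρ := by linarith
    refine ⟨fun _ => 2 * ((1 - ell j z.1 - 2 * ρ) / (1 - 2 * ρ)) - 1, ?_, ?_⟩
    · rw [mem_closedBall_zero_iff, pi_norm_le_iff_of_nonneg zero_le_one]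
      intro _
      rw [Real.norm_eq_abs, abs_le]
      have h5 : 0 ≤ (1 - ell j z.1 - 2 * ρ) / (1 - 2 * ρ) := div_nonneg (by linarith) hden.le
      have h6 : (1 - ell j z.1 - 2 * ρ) / (1 - 2 * ρ) ≤ 1 := by
        rw [div_le_one hden]; linarith
      constructor <;> linarith
    · have hτ : 2 * ρ + (1 - 2 * ρ) * ((1 + (2 * ((1 - ell j z.1 - 2 * ρ) / (1 - 2 * ρ)) - 1)) / 2)
          = 1 - ell j z.1 := by
        field_simp
        ring
      change onSheet 3 ((2 * ρ + (1 - 2 * ρ) *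
        ((1 + (2 * ((1 - ell j z.1 - 2 * ρ) / (1 - 2 * ρ)) - 1)) / 2)) • ev j) = z
      rw [hτ]
      refine eq_lift h2 e0 e1 ?_
      exact sqrt_of_neg (((sheet_sq hFS).2 hm.le).trans (qq_congr e0.symm e1.symm)) hw.le
  | 1, Sum.inr (Sum.inr (Sum.inr (Sum.inl i))), hc =>
    obtain ⟨θ, h1, h3, rfl⟩ := hc
    have hden : 0 < ang i.succ - ang i.castSucc := by linarith
    refine ⟨fun _ => 2 * ((θ - ang i.castSucc) / (ang i.succ - ang i.castSucc)) - 1, ?_, ?_⟩
    · rw [mem_closedBall_zero_iff, pi_norm_le_iff_of_nonneg zero_le_one]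
      intro _
      rw [Real.norm_eq_abs, abs_le]
      have h5 : 0 ≤ (θ - ang i.castSucc) / (ang i.succ - ang i.castSucc) :=
        div_nonneg (by linarith) hden.le
      have h6 : (θ - ang i.castSucc) / (ang i.succ - ang i.castSucc) ≤ 1 := by
        rw [div_le_one hden]; linarith
      constructor <;> linarith
    · change circ ρ (ang i.castSucc + (ang i.succ - ang i.castSucc) *
        ((1 + (2 * ((θ - ang i.castSucc) / (ang i.succ - ang i.castSucc)) - 1)) / 2)) = circ ρ θ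
      congr 1
      field_simp
      ring
  | 1, Sum.inr (Sum.inr (Sum.inr (Sum.inr ()))), hc =>
    obtain ⟨hn, t, rfl⟩ := hc
    have hform := (hF ρ l hp).2.2.2.2.2 !₂[0, t]
    have hn' : nn (floorX ρ l !₂[0, t]) < 4 * ρ ^ 2 := hn
    rw [hform] at hn'
    have e0 : (!₂[(0 : ℝ), t] : E2) 0 = 0 := rfl
    have e1 : (!₂[(0 : ℝ), t] : E2) 1 = t := rfl
    rw [e0, e1, mul_zero, Real.cos_zero] at hn'
    have hR : 0 < 2 * ρ / l := by positivity
    have hsq : (t + 1) ^ 2 < (2 * ρ / l) ^ 2 := by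
      rw [div_pow, lt_div_iff₀ (by positivity)]
      nlinarith
    have habs := abs_lt_of_sq_lt_sq hsq hR.le
    refine ⟨fun _ => (t + 1) / (2 * ρ / l), ?_, ?_⟩
    · rw [mem_closedBall_zero_iff, pi_norm_le_iff_of_nonneg zero_le_one]
      intro _
      rw [Real.norm_eq_abs, abs_div, abs_of_pos hR, div_le_one hR]
      exact habs.le
    · change floorP ρ l !₂[0, -1 + (t + 1) / (2 * ρ / l) * (2 * ρ / l)] = _
      rw [div_mul_cancel₀ _ hR.ne']
      congr 2
      ring_nf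
  | 2, Sum.inl (o, k), hc =>
    obtain ⟨h2, hFS, hk, hP, hm⟩ := hc
    have hn : nn z.1 < 4 := hS.2.2.1 z.1 (fun j => (hP j).le) hFS
    obtain ⟨β, σ, hβ0, hβ1, hσ0, hσ1, e0, e1, k1, k2, q1, q2, hnn⟩ := kite_pt hK hS hFS hn hk
    have hw : z.1 2 ^ 2 = qW (if o then 1 else -1) β σ := by
      cases o
      · have hm' : mm z.1 < 0 ∧ (0 ≤ z.1 2 ∨ 4 * ρ ^ 2 < nn z.1) := hm
        simp only [Bool.false_eq_true, if_false]
        rw [← q2]
        exact (sheet_sq hFS).2 hm'.1.le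
      · have hm' : 0 < mm z.1 := hm
        rw [if_pos rfl, ← q1]
        exact (sheet_sq hFS).1 hm'.le
    obtain ⟨s, hs, hws⟩ := wedge_mem hA hK hρ hρ' h2 o hβ0 hβ1 hσ0 hσ1 e0 e1 hw (by
      intro ho hneg
      subst ho
      have hm' : mm z.1 < 0 ∧ (0 ≤ z.1 2 ∨ 4 * ρ ^ 2 < nn z.1) := hm
      rcases hm'.2 with h | h
      · exact absurd hneg (not_lt.2 h)
      · rw [hnn]; exact h.le)
    refine ⟨![2 * β - 1, s], ?_, ?_⟩
    · rw [mem_closedBall_zero_iff, pi_norm_le_iff_of_nonneg zero_le_one]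
      intro i
      fin_cases i
      · change |2 * β - 1| ≤ 1
        rw [abs_le]; constructor <;> linarith
      · exact hs
    · have hβ : (1 + (2 * β - 1)) / 2 = β := by ring
      change wedge ρ o k ((1 + (2 * β - 1)) / 2) s = z
      rw [hβ]
      exact hws
  | 2, Sum.inr (), hc =>
    obtain ⟨hn, u, t, hu0, hu1, rfl⟩ := hc
    have hform := (hF ρ l hp).2.2.2.2.2 !₂[u, t]
    have hn' : nn (floorX ρ l !₂[u, t]) < 4 * ρ ^ 2 := hn
    rw [hform] at hn'
    have e0 : (!₂[u, t] : E2) 0 = u := rfl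
    have e1 : (!₂[u, t] : E2) 1 = t := rfl
    rw [e0, e1] at hn'
    have hcs := Real.sin_sq_add_cos_sq (3 * u)
    have hsq : (t + Real.cos (3 * u)) ^ 2 < (2 * ρ / l) ^ 2 - Real.sin (3 * u) ^ 2 := by
      have h5 : t ^ 2 + 2 * t * Real.cos (3 * u) + 1 < (2 * ρ / l) ^ 2 := by
        rw [div_pow, lt_div_iff₀ (by positivity)]
        nlinarith
      nlinarith
    have hpos : 0 < (2 * ρ / l) ^ 2 - Real.sin (3 * u) ^ 2 :=
      lt_of_le_of_lt (sq_nonneg _) hsq
    have hsqrt : 0 < √((2 * ρ / l) ^ 2 - Real.sin (3 * u) ^ 2) := Real.sqrt_pos.2 hpos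
    have habs : |t + Real.cos (3 * u)| < √((2 * ρ / l) ^ 2 - Real.sin (3 * u) ^ 2) :=
      (Real.lt_sqrt (abs_nonneg _)).2 (by rw [sq_abs]; exact hsq)
    have hpi := Real.pi_pos
    refine ⟨![2 * u / Real.pi - 1, (t + Real.cos (3 * u)) /
      √((2 * ρ / l) ^ 2 - Real.sin (3 * u) ^ 2)], ?_, ?_⟩
    · rw [mem_closedBall_zero_iff, pi_norm_le_iff_of_nonneg zero_le_one]
      intro i
      fin_cases i
      · change |2 * u / Real.pi - 1| ≤ 1
        have h5 : 0 ≤ 2 * u / Real.pi := by positivity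
        have h6 : 2 * u / Real.pi ≤ 2 := by
          rw [div_le_iff₀ hpi]; linarith
        rw [abs_le]; constructor <;> linarith
      · change |(t + Real.cos (3 * u)) / √((2 * ρ / l) ^ 2 - Real.sin (3 * u) ^ 2)| ≤ 1
        rw [abs_div, abs_of_pos hsqrt, div_le_one hsqrt]
        exact habs.le
    · have hu : Real.pi * (1 + (2 * u / Real.pi - 1)) / 2 = u := by
        field_simp
        ring
      change floorP ρ l !₂[Real.pi * (1 + (2 * u / Real.pi - 1)) / 2,
        -Real.cos (3 * (Real.pi * (1 + (2 * u / Real.pi - 1)) / 2)) +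
        (t + Real.cos (3 * u)) / √((2 * ρ / l) ^ 2 - Real.sin (3 * u) ^ 2) *
        √((2 * ρ / l) ^ 2 -
          Real.sin (3 * (Real.pi * (1 + (2 * u / Real.pi - 1)) / 2)) ^ 2)] = _
      rw [hu, div_mul_cancel₀ _ hsqrt.ne']
      congr 2
      ring_nf

end Pool.Agent.Tight.H62
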